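import Pool.Agent.Run7.h712.TS.Main
import Pool.Agent.N534.TL.Main2

/-!
# The L-functions of the members of a linear system of hypersurfaces: local logarithms
-/

set_option autoImplicit false

namespace Pool.Agent.Run7.h712.HY

open Finset Pool.Agent.Y722.HS Pool.Agent.Y722.LS
open Pool.Agent.N534.TL (twist twist_norm norm_pi LP_twist)
open Pool.Agent.N534.LF (Loc)

lemma tsum_small (F : Nat.Primes → ℂ) (K : ℝ) (hK : 0 ≤ K)
    (h : ∀ p : Nat.Primes, ‖F p‖ ≤ K * (1 / ((p : ℕ) : ℝ) ^ ((3 : ℝ) / 2))) : Summable F ∧ ‖∑' p, F p‖ ≤ K * SS := by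
  have hs : Summable fun p : Nat.Primes => K * (1 / ((p : ℕ) : ℝ) ^ ((3 : ℝ) / 2)) :=
    (summable_SS.comp_injective (fun a b h => Subtype.ext h)).mul_left K
  refine ⟨Summable.of_norm_bounded hs h, (tsum_of_norm_bounded hs.hasSum h).trans ?_⟩
  refine hs.tsum_le_of_sum_le fun t => ?_
  rw [← Finset.mul_sum]
  refine mul_le_mul_of_nonneg_left ?_ hK
  have h5 := sum_le_SS (t.image (fun p : Nat.Primes => (p : ℕ)))
  have h6 : ∑ q ∈ t.image (fun p : Nat.Primes => (p : ℕ)), 1 / (q : ℝ) ^ ((3 : ℝ) / 2) =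
      ∑ p ∈ t, 1 / ((p : ℕ) : ℝ) ^ ((3 : ℝ) / 2) := Finset.sum_image (fun a _ b _ h => Subtype.ext h)
  rw [h6] at h5
  exact h5

lemma pow_split (p : ℕ) (hp : p.Prime) (u : ℂ) :
    (p : ℂ) ^ (-u) = (((p : ℝ) ^ (-u.re) : ℝ) : ℂ) * (p : ℂ) ^ (-((u.im : ℂ) * Complex.I)) := by
  have hp0 : (0 : ℝ) < p := by exact_mod_cast hp.pos
  have hpc : (p : ℂ) ≠ 0 := by exact_mod_cast hp.ne_zero
  have e2 : -u = -(u.re : ℂ) + -((u.im : ℂ) * Complex.I) := by
    conv_lhs => rw [← Complex.re_add_im u]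
    ring
  rw [e2, Complex.cpow_add _ _ hpc, Complex.ofReal_cpow hp0.le]
  push_cast
  rfl

lemma norm_pow (p : ℕ) (hp : p.Prime) (u : ℂ) : ‖(p : ℂ) ^ (-u)‖ = (p : ℝ) ^ (-u.re) := by
  have hp0 : (0 : ℝ) < p := by exact_mod_cast hp.pos
  have : ((p : ℝ) : ℂ) = (p : ℂ) := by push_cast; rfl
  rw [← this, Complex.norm_cpow_eq_rpow_re_of_pos hp0]
  simp

variable {m : ℕ} {ι : Type} [Fintype ι] [DecidableEq ι]

/-- the local logarithm without its mean -/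
noncomputable def lamH (f : ι → MvPolynomial (Fin (2 * m + 2)) ℤ) {b : ℕ} (α : ℕ → Fin b → ℂ) (p : ℕ) (u : ℂ) : ℂ :=
  gl (2 * m + 1) (twist α u.im) u.re p - (rho f p : ℂ) * (p : ℂ) ^ (-u)

/-- the sum of the twisted eigenvalues -/
lemma sum_twist {b : ℕ} (α : ℕ → Fin b → ℂ) (p : ℕ) (hp : p.Prime) (u : ℂ) :
    (∑ j, twist α u.im p j) * (p : ℂ) ^ (-ss (2 * m + 1) u.re) = (∑ j, α p j) / (p : ℂ) ^ (m + 1) * (p : ℂ) ^ (-u) := by
  have hp0 : (0 : ℝ) < p := by exact_mod_cast hp.pos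
  have hpc : (p : ℂ) ≠ 0 := by exact_mod_cast hp.ne_zero
  have hss : (((2 * m + 1 : ℕ) : ℝ) + 1) / 2 = ((m + 1 : ℕ) : ℝ) := by push_cast; ring
  have hcp : (p : ℂ) ^ (-ss (2 * m + 1) u.re) = (((p : ℝ) ^ (-u.re) : ℝ) : ℂ) / (p : ℂ) ^ (m + 1) := by
    have h1 : (p : ℝ) ^ (-u.re) / (p : ℝ) ^ (m + 1) = (p : ℝ) ^ (-(((m + 1 : ℕ) : ℝ) + u.re)) := by
      rw [neg_add, Real.rpow_add hp0, Real.rpow_neg hp0.le ((m + 1 : ℕ) : ℝ), Real.rpow_natCast]
      ring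
    have h2 : (((p : ℝ) ^ (-u.re) : ℝ) : ℂ) / (p : ℂ) ^ (m + 1) = (((p : ℝ) ^ (-u.re) / (p : ℝ) ^ (m + 1) : ℝ) : ℂ) := by
      push_cast
      rfl
    rw [h2, h1, Complex.ofReal_cpow hp0.le]
    congr 1
    unfold ss
    rw [hss]
    push_cast
    ring
  have hsumtw : (∑ j, twist α u.im p j) = (∑ j, α p j) * (p : ℂ) ^ (-((u.im : ℂ) * Complex.I)) := by
    rw [Finset.sum_mul]
    rfl
  rw [hcp, hsumtw, pow_split p hp u]
  ring

section
variable {f : ι → MvPolynomial (Fin (2 * m + 2)) ℤ} {p0 : ℕ} {CZ : ℝ}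

lemma bound_tw {b : ℕ} {c : ι → ℤ} {α : ℕ → Fin b → ℂ} (h : IsFrobenius f b c α) (τ : ℝ) :
    ∀ p : ℕ, p.Prime → ∀ j, ‖twist α τ p j‖ ≤ (p : ℝ) ^ ((((2 * m + 1 : ℕ) : ℝ) - 1) / 2) := by
  intro p hp j
  have e : (((2 * m + 1 : ℕ) : ℝ) - 1) / 2 = (m : ℝ) := by push_cast; ring
  rw [e, Real.rpow_natCast, twist_norm α τ p hp]
  exact h.bound p hp j

lemma loc_bound (hCZ : 0 ≤ CZ) (hZ : ∀ p : ℕ, p.Prime → zc f p ≤ CZ * (p : ℝ) ^ m) {b : ℕ} {c : ι → ℤ} {α : ℕ → Fin b → ℂ}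
    (h : IsFrobenius f b c α) (p : ℕ) (hp : p.Prime) (u : ℂ) (hu : 0 ≤ u.re) :
    ‖lamH f α p u‖ ≤ (2 * b + CZ + 1) * (p : ℝ) ^ (-1 - u.re) := by
  have hp0 : (0 : ℝ) < p := by exact_mod_cast hp.pos
  have h1 := gl_le (n := 2 * m + 1) hu (bound_tw h u.im) p hp
  obtain ⟨hρ0, hρ1⟩ := rho_bd hZ p hp
  have h2 : ‖(rho f p : ℂ) * (p : ℂ) ^ (-u)‖ ≤ (CZ + 1) * (p : ℝ) ^ (-1 - u.re) := by
    rw [norm_mul, Complex.norm_real, Real.norm_of_nonneg hρ0, norm_pow p hp u]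
    calc rho f p * (p : ℝ) ^ (-u.re) ≤ (CZ + 1) / p * (p : ℝ) ^ (-u.re) := mul_le_mul_of_nonneg_right hρ1 (by positivity)
      _ = _ := by
          rw [sub_eq_add_neg, Real.rpow_add hp0, Real.rpow_neg_one]
          ring
  unfold lamH
  refine (norm_sub_le _ _).trans ((add_le_add h1 h2).trans (le_of_eq (by ring)))

theorem loc (P : MvPolynomial ι ℤ)
    (hP : ∀ (K : Type) [Field K] (c : ι → K), MvPolynomial.eval₂ (Int.castRingHom K) c P ≠ 0 →
      IsSmooth (lform (n := 2 * m + 1) f c)) (hCZ : 0 ≤ CZ)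
    (hZ : ∀ p : ℕ, p.Prime → zc f p ≤ CZ * (p : ℝ) ^ m) {b : ℕ} {c : ι → ℤ} {α : ℕ → Fin b → ℂ}
    (h : IsFrobenius f b c α) : Loc (2 * b + CZ + 1) (NN f p0) (BB P p0) c (lamH f α) := by
  refine ⟨fun p hp u hu => ?_, fun p hp u hu => loc_bound hCZ hZ h p hp u hu⟩
  have hF := Fact.mk hp
  have hp0 : (0 : ℝ) < p := by exact_mod_cast hp.pos
  have hp1 : (1 : ℝ) ≤ p := by exact_mod_cast hp.one_lt.le
  have hpu : (p : ℝ) ^ (-u.re) ≤ 1 := Real.rpow_le_one_of_one_le_of_nonpos hp1 (by linarith)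
  by_cases hb : p < p0 ∨ MvPolynomial.eval₂ (Int.castRingHom (ZMod p)) (red p c) P = 0
  · have h1 : bb (NN f p0) (BB P p0) (2 * b + CZ + 1) p (red p c) =
        |NN f p0 p (red p c)| + (2 * b + CZ + 1) / p := by
      unfold bb BB; rw [if_pos hb, one_mul]
    rw [h1]
    have h2 := loc_bound hCZ hZ h p hp u hu
    have h3 : (2 * b + CZ + 1) * (p : ℝ) ^ (-1 - u.re) ≤ (2 * b + CZ + 1) / p := by
      rw [div_eq_mul_inv, ← Real.rpow_neg_one]
      apply mul_le_mul_of_nonneg_left _ (by positivity)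
      exact Real.rpow_le_rpow_of_exponent_le hp1 (by linarith)
    have h4 : ‖(p : ℂ) ^ (-u) * (NN f p0 p (red p c) : ℂ)‖ ≤ |NN f p0 p (red p c)| := by
      rw [norm_mul, norm_pow p hp u, Complex.norm_real, Real.norm_eq_abs]
      exact mul_le_of_le_one_left (abs_nonneg _) hpu
    have h5 : 0 ≤ (2 * b + CZ + 1) * (1 / (p : ℝ) ^ ((3 : ℝ) / 2)) := by positivity
    refine (norm_sub_le _ _).trans ?_
    linarith
  · have h1 : bb (NN f p0) (BB P p0) (2 * b + CZ + 1) p (red p c) = 0 := by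
      unfold bb BB; rw [if_neg hb, zero_mul]
    push Not at hb
    obtain ⟨hb1, hb2⟩ := hb
    have hsm : IsSmooth (MvPolynomial.map (algebraMap (ZMod p) (AlgebraicClosure (ZMod p)))
        (lform (n := 2 * m + 1) f (red p c))) := by
      rw [map_lform]
      apply hP
      have h2 : MvPolynomial.eval₂ (Int.castRingHom (AlgebraicClosure (ZMod p)))
          (fun i => algebraMap (ZMod p) (AlgebraicClosure (ZMod p)) (red p c i)) P =
          algebraMap (ZMod p) (AlgebraicClosure (ZMod p))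
            (MvPolynomial.eval₂ (Int.castRingHom (ZMod p)) (red p c) P) := by
        rw [MvPolynomial.eval₂_comp_left, RingHom.ext_int
          ((algebraMap (ZMod p) (AlgebraicClosure (ZMod p))).comp (Int.castRingHom (ZMod p)))
          (Int.castRingHom (AlgebraicClosure (ZMod p)))]
        rfl
      rw [h2]
      intro h3
      exact hb2 ((map_eq_zero _).mp h3)
    have h2 := h.count p hsm
    have hp1' : (p : ℝ) - 1 ≠ 0 := by
      have : (1 : ℝ) < p := by exact_mod_cast hp.one_lt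
      linarith
    have hp1c : ((p : ℂ) - 1) ≠ 0 := by exact_mod_cast hp1'
    have h3 : ∑ j, α p j =
        ((la (n := 2 * m + 1) f p (red p c) + zc f p + (p : ℝ) ^ m : ℝ) : ℂ) := by
      have h4 : la (n := 2 * m + 1) f p (red p c) + zc f p + (p : ℝ) ^ m =
          ((lcone (n := 2 * m + 1) f (red p c) : ℝ) - ((p : ℝ) ^ (2 * m + 1) - 1)) / ((p : ℝ) - 1) +
            (p : ℝ) ^ m := by
        unfold la zc dcone
        field_simp
        ring
      rw [h4]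
      push_cast
      rw [h2]
      field_simp
      ring
    have hpc : (p : ℂ) ≠ 0 := by exact_mod_cast hp.ne_zero
    have h5 : lamH f α p u - (p : ℂ) ^ (-u) * (NN f p0 p (red p c) : ℂ) =
        gl (2 * m + 1) (twist α u.im) u.re p - (∑ j, twist α u.im p j) * (p : ℂ) ^ (-ss (2 * m + 1) u.re) := by
      rw [sum_twist α p hp u, h3]
      unfold lamH
      rw [NN, if_neg (by omega), rho]
      push_cast
      field_simp
      ring
    rw [h5, h1, zero_add]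
    refine (gl_near (n := 2 * m + 1) hu (bound_tw h u.im) p hp).trans ?_
    apply mul_le_mul_of_nonneg_right _ (by positivity)
    have : (0 : ℝ) ≤ b := Nat.cast_nonneg _
    linarith

end

/-- `ζ (1 + u)` and the sum over the primes -/
lemma zeta_near' (u : ℂ) (hu : 0 < u.re) : riemannZeta (1 + u) ≠ 0 ∧
    |Real.log ‖riemannZeta (1 + u)‖ - (∑' p : Nat.Primes, ((p : ℕ) : ℂ) ^ (-(1 + u))).re| ≤ SS := by
  have hα : ∀ p : ℕ, p.Prime → ∀ j : Fin 1, ‖twist (fun (_ : ℕ) (_ : Fin 1) => (1 : ℂ)) u.im p j‖ ≤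
      (p : ℝ) ^ ((((1 : ℕ) : ℝ) - 1) / 2) := by
    intro p hp j
    rw [twist_norm _ _ p hp]
    simp
  have h1 := LP_eq (n := 1) hu hα
  have h4 : LP (b := 1) (twist (fun _ _ => 1) u.im) (ss 1 u.re) = riemannZeta (1 + u) := by
    have h5 : ss 1 u.re = 1 + (u.re : ℂ) := by
      simp only [ss]
      push_cast
      ring
    have h7 : (1 : ℂ) + u = 1 + (u.re : ℂ) + u.im * Complex.I := by
      conv_lhs => rw [← Complex.re_add_im u]
      ring
    have h6 := riemannZeta_eulerProduct_tprod (s := 1 + (u.re : ℂ) + u.im * Complex.I) (by simp [hu])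
    rw [LP_twist, h7, ← h6, h5, LP]
    simp
  rw [h4] at h1
  refine ⟨by rw [h1]; exact Complex.exp_ne_zero _, ?_⟩
  rw [h1, Complex.norm_exp, Real.log_exp]
  have hg : Summable fun p : Nat.Primes => 2 * ((1 : ℕ) : ℝ) * ((p : ℕ) : ℝ) ^ (-1 - u.re) :=
    (summable_primes hu).mul_left _
  have hs1 : Summable fun p : Nat.Primes => gl 1 (twist (fun (_ : ℕ) (_ : Fin 1) => (1 : ℂ)) u.im) u.re p :=
    Summable.of_norm_bounded hg fun p => gl_le hu.le hα p p.2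
  have hs2 : Summable fun p : Nat.Primes => ((p : ℕ) : ℂ) ^ (-(1 + u)) := by
    refine Summable.of_norm_bounded (summable_primes hu) fun p => ?_
    rw [norm_pow p p.2]
    apply le_of_eq
    congr 1
    simp
    ring
  have h2 := tsum_small (fun p : Nat.Primes => gl 1 (twist (fun (_ : ℕ) (_ : Fin 1) => (1 : ℂ)) u.im) u.re p -
    ((p : ℕ) : ℂ) ^ (-(1 + u))) 1 zero_le_one (fun p => by
      have h3 := gl_near (n := 1) hu.le hα p p.2
      have h5 : (∑ j : Fin 1, twist (fun (_ : ℕ) (_ : Fin 1) => (1 : ℂ)) u.im (p : ℕ) j) * ((p : ℕ) : ℂ) ^ (-ss 1 u.re) =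
          ((p : ℕ) : ℂ) ^ (-(1 + u)) := by
        have h6 := sum_twist (m := 0) (fun (_ : ℕ) (_ : Fin 1) => (1 : ℂ)) (p : ℕ) p.2 u
        have hpc : ((p : ℕ) : ℂ) ≠ 0 := by exact_mod_cast p.2.ne_zero
        have h7 : (∑ j : Fin 1, twist (fun (_ : ℕ) (_ : Fin 1) => (1 : ℂ)) u.im (p : ℕ) j) * ((p : ℕ) : ℂ) ^ (-ss 1 u.re) =
            (∑ _j : Fin 1, (1 : ℂ)) / ((p : ℕ) : ℂ) ^ (0 + 1) * ((p : ℕ) : ℂ) ^ (-u) := h6
        rw [h7, neg_add, Complex.cpow_add _ _ hpc, Complex.cpow_neg_one]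
        simp
      rw [h5] at h3
      simpa using h3)
  rw [hs1.tsum_sub hs2] at h2
  rw [← Complex.sub_re, ← one_mul SS]
  exact (Complex.abs_re_le_norm _).trans h2.2

section
variable {f : ι → MvPolynomial (Fin (2 * m + 2)) ℤ} {CZ C1 e : ℝ}

/-- **The logarithm of the L-function.** -/
theorem log_close (hC1 : 0 ≤ C1) (hCZ : 0 ≤ CZ)
    (hZ : ∀ p : ℕ, p.Prime → |zc f p - e * (p : ℝ) ^ m| ≤ C1 * (p : ℝ) ^ ((m : ℝ) - 1 / 2))
    (hZ' : ∀ p : ℕ, p.Prime → zc f p ≤ CZ * (p : ℝ) ^ m) {b : ℕ} {c : ι → ℤ} {α : ℕ → Fin b → ℂ}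
    (h : IsFrobenius f b c α) (u : ℂ) (hu : 0 < u.re) : LP α (m + 1 + u) ≠ 0 ∧
    |Real.log ‖LP α (m + 1 + u)‖ - (1 + e) * Real.log ‖riemannZeta (1 + u)‖| ≤
      ‖∑' p : Nat.Primes, lamH f α p u‖ + (C1 * SS + |1 + e| * SS) := by
  have h1 := LP_eq (n := 2 * m + 1) hu (bound_tw h u.im)
  have h2 : LP (twist α u.im) (ss (2 * m + 1) u.re) = LP α (m + 1 + u) := by
    rw [LP_twist]
    congr 1
    unfold ss
    conv_rhs => rw [← Complex.re_add_im u]
    push_cast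
    ring
  rw [h2] at h1
  refine ⟨by rw [h1]; exact Complex.exp_ne_zero _, ?_⟩
  rw [h1, Complex.norm_exp, Real.log_exp]
  obtain ⟨-, hz⟩ := zeta_near' u hu
  have hg : Summable fun p : Nat.Primes => 2 * (b : ℝ) * ((p : ℕ) : ℝ) ^ (-1 - u.re) := (summable_primes hu).mul_left _
  have hs1 : Summable fun p : Nat.Primes => gl (2 * m + 1) (twist α u.im) u.re p :=
    Summable.of_norm_bounded hg fun p => gl_le hu.le (bound_tw h u.im) p p.2
  have hs2 : Summable fun p : Nat.Primes => ((p : ℕ) : ℂ) ^ (-(1 + u)) := by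
    refine Summable.of_norm_bounded (summable_primes hu) fun p => ?_
    rw [norm_pow p p.2]
    apply le_of_eq
    congr 1
    simp
    ring
  have hs3 : Summable fun p : Nat.Primes => lamH f α p u :=
    Summable.of_norm_bounded ((summable_primes hu).mul_left (2 * b + CZ + 1)) fun p => loc_bound hCZ hZ' h p p.2 u hu.le
  -- the difference of the means
  have h3 := tsum_small (fun p : Nat.Primes => (rho f p : ℂ) * ((p : ℕ) : ℂ) ^ (-u) - (1 + e : ℂ) * ((p : ℕ) : ℂ) ^ (-(1 + u)))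
    C1 hC1 (fun p => by
      have hp0 : (0 : ℝ) < (p : ℕ) := by exact_mod_cast p.2.pos
      have hp1 : (1 : ℝ) ≤ (p : ℕ) := by exact_mod_cast p.2.one_lt.le
      have hpc : ((p : ℕ) : ℂ) ≠ 0 := by exact_mod_cast p.2.ne_zero
      have e1 : (rho f p : ℂ) * ((p : ℕ) : ℂ) ^ (-u) - (1 + e : ℂ) * ((p : ℕ) : ℂ) ^ (-(1 + u)) =
          (((zc f p - e * ((p : ℕ) : ℝ) ^ m) / ((p : ℕ) : ℝ) ^ (m + 1) : ℝ) : ℂ) * ((p : ℕ) : ℂ) ^ (-u) := by
        rw [neg_add, Complex.cpow_add _ _ hpc, Complex.cpow_neg_one, rho]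
        push_cast
        rw [pow_succ]
        field_simp
        ring
      rw [e1, norm_mul, norm_pow p p.2, Complex.norm_real, Real.norm_eq_abs, abs_div,
        abs_of_pos (by positivity : (0 : ℝ) < ((p : ℕ) : ℝ) ^ (m + 1))]
      have hpu : ((p : ℕ) : ℝ) ^ (-u.re) ≤ 1 := Real.rpow_le_one_of_one_le_of_nonpos hp1 (by linarith)
      have e2 : ((p : ℕ) : ℝ) ^ (m + 1) = ((p : ℕ) : ℝ) ^ ((m : ℝ) - 1 / 2) * ((p : ℕ) : ℝ) ^ ((3 : ℝ) / 2) := by
        rw [← Real.rpow_add hp0, ← Real.rpow_natCast]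
        congr 1
        push_cast
        ring
      calc _ ≤ C1 * ((p : ℕ) : ℝ) ^ ((m : ℝ) - 1 / 2) / ((p : ℕ) : ℝ) ^ (m + 1) * 1 := by
            gcongr
            exact hZ p p.2
        _ = _ := by
            rw [e2]
            field_simp)
  have hs4 : Summable fun p : Nat.Primes => (rho f p : ℂ) * ((p : ℕ) : ℂ) ^ (-u) := by
    have := h3.1.add (hs2.mul_left (1 + e : ℂ))
    refine this.congr fun p => ?_
    ring
  have e3 : ∑' p : Nat.Primes, gl (2 * m + 1) (twist α u.im) u.re p =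
      ∑' p : Nat.Primes, lamH f α p u + ∑' p : Nat.Primes, (rho f p : ℂ) * ((p : ℕ) : ℂ) ^ (-u) := by
    rw [← hs3.tsum_add hs4]
    refine tsum_congr fun p => ?_
    unfold lamH
    ring
  have e4 : ∑' p : Nat.Primes, ((rho f p : ℂ) * ((p : ℕ) : ℂ) ^ (-u) - (1 + e : ℂ) * ((p : ℕ) : ℂ) ^ (-(1 + u))) =
      ∑' p : Nat.Primes, (rho f p : ℂ) * ((p : ℕ) : ℂ) ^ (-u) - (1 + e : ℂ) * ∑' p : Nat.Primes, ((p : ℕ) : ℂ) ^ (-(1 + u)) := by
    rw [hs4.tsum_sub (hs2.mul_left _), tsum_mul_left]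
  obtain ⟨-, h3⟩ := h3
  rw [e4] at h3
  set G := ∑' p : Nat.Primes, gl (2 * m + 1) (twist α u.im) u.re p
  set Lm := ∑' p : Nat.Primes, lamH f α p u
  set R := ∑' p : Nat.Primes, (rho f p : ℂ) * ((p : ℕ) : ℂ) ^ (-u)
  set Z := ∑' p : Nat.Primes, ((p : ℕ) : ℂ) ^ (-(1 + u))
  set l := Real.log ‖riemannZeta (1 + u)‖
  have e5 : (1 + e : ℂ) * Z = (((1 + e : ℝ)) : ℂ) * Z := by push_cast; rfl
  have e6 : G.re - (1 + e) * l = Lm.re + (R - (1 + e : ℂ) * Z).re + (1 + e) * (Z.re - l) := by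
    rw [e3, e5, Complex.sub_re, Complex.add_re, Complex.re_ofReal_mul]
    ring
  rw [e6]
  have i1 := abs_add_le (Lm.re + (R - (1 + e : ℂ) * Z).re) ((1 + e) * (Z.re - l))
  have i2 := abs_add_le Lm.re (R - (1 + e : ℂ) * Z).re
  have i3 := Complex.abs_re_le_norm Lm
  have i4 := Complex.abs_re_le_norm (R - (1 + e : ℂ) * Z)
  have i5 : |(1 + e) * (Z.re - l)| ≤ |1 + e| * SS := by
    rw [abs_mul, abs_sub_comm]
    exact mul_le_mul_of_nonneg_left hz (abs_nonneg _)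
  linarith

end

end Pool.Agent.Run7.h712.HY
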