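import Pool.Agent.Run7.h712.HY.Loc
import Pool.Agent.Run7.h712.TS.Box

/-!
# The L-functions of almost all the members of well distributed families in a linear system of hypersurfaces
-/

set_option autoImplicit false

namespace Pool.Agent.Run7.h712.HY

open Finset Pool.Agent.Y722.HS Pool.Agent.Y722.LS
open Pool.Agent.N534.LF (Loc)
open Pool.Agent.N666.TM (Well)
open Pool.Agent.Run7.h712.TS (Good abs_main loglog)

variable {m : ℕ} {ι : Type} [Fintype ι] [DecidableEq ι]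

/-- For every choice of the Frobenius eigenvalues of the member `c`, its L-function is as large as `|ζ(1 + u)|^{1 + e}` at `m + 1 + u`,
up to a power of `log (y + |Im u|)`, for all `u` with `1 / log N ≤ Re u ≤ 1` and `|Im u| ≤ N ^ κ`. -/
def Close (f : ι → MvPolynomial (Fin (2 * m + 2)) ℤ) (b : ℕ) (e κ C : ℝ) (N y : ℕ) (c : ι → ℤ) : Prop :=
  ∀ α : ℕ → Fin b → ℂ, IsFrobenius f b c α → ∀ u : ℂ, 1 / Real.log N ≤ u.re → u.re ≤ 1 → |u.im| ≤ (N : ℝ) ^ κ →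
    Real.log (y + |u.im|) ^ (-C) * ‖riemannZeta (1 + u)‖ ^ (1 + e) ≤ ‖LP α (m + 1 + u)‖ ∧
    ‖LP α (m + 1 + u)‖ ≤ Real.log (y + |u.im|) ^ C * ‖riemannZeta (1 + u)‖ ^ (1 + e)

open Classical in
/-- **The theorem for well distributed families.** -/
theorem hyp_main {d : ℕ} (hd : 1 ≤ d) (f : ι → MvPolynomial (Fin (2 * m + 2)) ℤ)
    (hf : ∀ i, (f i).IsHomogeneous d) (c0 : ι → ℤ)
    (hs : IsSmooth (lform (n := 2 * m + 1) f (fun i => (c0 i : ℂ)))) (p0 : ℕ)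
    (hsep : ∀ p : ℕ, p.Prime → p0 ≤ p → Separates (n := 2 * m + 1) f p) (e C0 : ℝ)
    (hZ : ∀ p : ℕ, p.Prime → p0 ≤ p → |zc f p - e * (p : ℝ) ^ m| ≤ C0 * (p : ℝ) ^ ((m : ℝ) - 1 / 2))
    (b E : ℕ) {κ : ℝ} (hκ : 0 < κ) (N₀ : ℕ) :
    ∃ κ' C : ℝ, 0 < κ' ∧ 0 < C ∧ ∃ y₀ : ℕ, 16 ≤ y₀ ∧ ∀ y M : ℕ, y₀ ≤ y → 2 ≤ M → ∀ (S : Finset ℕ) (x : ℕ → ι → ℤ),
      (N₀ ≤ M → ∀ H : ℕ, (H : ℝ) ≤ (M : ℝ) ^ κ → Well S x H) →
      ((S.filter fun t => ¬ Close f b e κ' C M y (x t)).card : ℝ) ≤ 1 / (y : ℝ) ^ E * S.card := by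
  obtain ⟨C1, hC1, hZ1⟩ := count_all f p0 e C0 hZ
  have hzc : ∀ p : ℕ, p.Prime → zc f p ≤ (|e| + C1) * (p : ℝ) ^ m := by
    intro p hp
    have h1 := hZ1 p hp
    have h2 := half_pow (m := m) hp
    have h3 : (0 : ℝ) ≤ (p : ℝ) ^ m := by positivity
    have h4 := (abs_le.mp h1).2
    have h5 : e * (p : ℝ) ^ m ≤ |e| * (p : ℝ) ^ m := by
      gcongr
      exact le_abs_self e
    have h6 : C1 * (p : ℝ) ^ ((m : ℝ) - 1 / 2) ≤ C1 * (p : ℝ) ^ m := by gcongr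
    linarith
  obtain ⟨P, hP0, hP⟩ := exists_disc (n := 2 * m + 1) f hd hf c0 hs
  have hCZ : 0 ≤ |e| + C1 := by positivity
  have hfam := fam (f := f) (p0 := p0) P c0 hP0 hCZ hsep hzc
  obtain ⟨κ', C, hκ', hC, y₀, hy₀, h⟩ := abs_main hfam (β := 2 * b + (|e| + C1) + 1) (by positivity) E hκ N₀
  have hSS := SS_nonneg
  obtain ⟨K, hK⟩ : ∃ K : ℝ, K = C1 * SS + |1 + e| * SS := ⟨_, rfl⟩
  have hK0 : 0 ≤ K := by rw [hK]; positivity
  refine ⟨κ', C + K, hκ', by linarith, y₀, hy₀, fun y M hy hM S x hw => ?_⟩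
  refine le_trans ?_ (h y M hy hM S x hw)
  have hsub : (S.filter fun t => ¬ Close f b e κ' (C + K) M y (x t)) ⊆
      S.filter fun t => ¬ Good (2 * b + (|e| + C1) + 1) (NN f p0) (BB P p0) κ' C M y (x t) := by
    intro t ht
    rw [mem_filter] at ht ⊢
    refine ⟨ht.1, fun hG => ht.2 fun α hα u hu1 hu2 hu3 => ?_⟩
    have hM2 : (2 : ℝ) ≤ M := by exact_mod_cast hM
    have hlogM : 0 < Real.log M := Real.log_pos (by linarith)
    have hu0 : 0 < u.re := lt_of_lt_of_le (by positivity) hu1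
    have h1 := hG _ (loc (p0 := p0) P hP hCZ hzc hα) u hu1 hu2 hu3
    obtain ⟨hne, h2⟩ := log_close hC1 hCZ hZ1 hzc hα u hu0
    obtain ⟨hz, -⟩ := zeta_near' u hu0
    have hy16 : (16 : ℝ) ≤ y := by exact_mod_cast (by omega : 16 ≤ y)
    have himn := abs_nonneg u.im
    have hll : 1 ≤ Real.log (Real.log (y + |u.im|)) := loglog (by linarith)
    have hlpos : 0 < Real.log (y + |u.im|) := Real.log_pos (by linarith)
    have h3 : |Real.log ‖LP α (m + 1 + u)‖ - (1 + e) * Real.log ‖riemannZeta (1 + u)‖| ≤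
        (C + K) * Real.log (Real.log (y + |u.im|)) := by
      refine h2.trans ?_
      rw [← hK]
      nlinarith
    obtain ⟨h4, h5⟩ := abs_le.1 h3
    have hL0 : 0 < ‖LP α (m + 1 + u)‖ := norm_pos_iff.2 hne
    have hz0 : 0 < ‖riemannZeta (1 + u)‖ := norm_pos_iff.2 hz
    constructor
    · rw [Real.rpow_def_of_pos hlpos, Real.rpow_def_of_pos hz0, ← Real.exp_add, ← Real.le_log_iff_exp_le hL0]
      linarith
    · rw [Real.rpow_def_of_pos hlpos, Real.rpow_def_of_pos hz0, ← Real.exp_add, ← Real.log_le_iff_le_exp hL0]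
      linarith
  exact_mod_cast card_le_card hsub

end Pool.Agent.Run7.h712.HY
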